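import Pool.Agent.Helper42.KS.Goals

set_option autoImplicit false

namespace Pool.Agent.Helper42.KS.PkC2

open Finset

/-- the moment inequality -/
theorem moment {d : ℕ} (k R l : ℕ) (T : ℝ) (hT : 0 ≤ T) (E F : Finset (Fin d → ℤ))
    (hF : F ⊆ box d R) (h : ∀ x ∈ F, ∃ n : ℤ, T < hits k E x n) :
    (F.card : ℝ) * T ^ (l + 1) ≤ coin k R l E := by
  classical
  unfold coin
  push_cast
  have h1 : ∀ x ∈ F, T ^ (l + 1) ≤
      (((Fintype.piFinset (fun _ : Fin (l + 1) => E)).filter (fun y => x ∈ eqd k R l y)).card : ℝ) := by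
    intro x hx
    obtain ⟨n, hn⟩ := h x hx
    have hsub : Fintype.piFinset (fun _ : Fin (l + 1) => E.filter fun y => (∀ i, y i ≤ x i) ∧
        ∑ i, (x i - y i) ^ k = n) ⊆
        (Fintype.piFinset (fun _ : Fin (l + 1) => E)).filter (fun y => x ∈ eqd k R l y) := by
      intro y hy
      rw [Fintype.mem_piFinset] at hy
      rw [mem_filter, Fintype.mem_piFinset]
      refine ⟨fun a => (mem_filter.1 (hy a)).1, ?_⟩
      unfold eqd
      rw [mem_filter]
      refine ⟨hF hx, fun i ν => (mem_filter.1 (hy i)).2.1 ν, fun i => ?_⟩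
      rw [(mem_filter.1 (hy i)).2.2, (mem_filter.1 (hy 0)).2.2]
    have hc := card_le_card hsub
    rw [Fintype.card_piFinset] at hc
    simp only [prod_const, card_univ, Fintype.card_fin] at hc
    have hc' : ((hits k E x n : ℕ) : ℝ) ^ (l + 1) ≤ (((Fintype.piFinset (fun _ : Fin (l + 1) => E)).filter
        (fun y => x ∈ eqd k R l y)).card : ℝ) := by
      unfold hits
      exact_mod_cast hc
    exact (pow_le_pow_left₀ hT hn.le _).trans hc'
  calc (F.card : ℝ) * T ^ (l + 1) = ∑ x ∈ F, T ^ (l + 1) := by rw [sum_const, nsmul_eq_mul]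
    _ ≤ ∑ x ∈ F, (((Fintype.piFinset (fun _ : Fin (l + 1) => E)).filter
        (fun y => x ∈ eqd k R l y)).card : ℝ) := sum_le_sum h1
    _ = ∑ y ∈ Fintype.piFinset (fun _ : Fin (l + 1) => E),
        ((F.filter (fun x => x ∈ eqd k R l y)).card : ℝ) := by
      have := sum_card_bipartiteAbove_eq_sum_card_bipartiteBelow
        (s := F) (t := Fintype.piFinset (fun _ : Fin (l + 1) => E)) (fun x y => x ∈ eqd k R l y)
      unfold bipartiteAbove bipartiteBelow at this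
      exact_mod_cast this
    _ ≤ ∑ y ∈ Fintype.piFinset (fun _ : Fin (l + 1) => E), ((eqd k R l y).card : ℝ) := by
      refine sum_le_sum fun y _ => ?_
      have : F.filter (fun x => x ∈ eqd k R l y) ⊆ eqd k R l y := fun x hx => (mem_filter.1 hx).2
      exact_mod_cast card_le_card this

theorem key (k d m : ℕ) (hk : 1 ≤ k) (hd : 2 * k < d) (hm : 2 ≤ m) (R lam e f K cn : ℝ)
    (hR : 1 ≤ R) (h0 : 0 < lam) (he : 1 ≤ e) (hK : 0 ≤ K)
    (hlt : e < R ^ d * lam ^ ((d : ℝ) / ((d : ℝ) - k)))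
    (h1 : f * (lam * R ^ (d - k)) ^ m ≤ cn)
    (h2 : cn ≤ K * (R ^ d * e ^ ((m : ℝ) * (1 - (k : ℝ) / d)))) :
    f ≤ K * lam ^ (-((d : ℝ) / ((d : ℝ) - k))) * e := by
  have hk' : (1 : ℝ) ≤ k := by exact_mod_cast hk
  have hd' : (2 : ℝ) * k < d := by exact_mod_cast hd
  have hm' : (2 : ℝ) ≤ m := by exact_mod_cast hm
  have hdk : (0 : ℝ) < (d : ℝ) - k := by linarith
  have hd0 : (0 : ℝ) < d := by linarith
  set pc : ℝ := (d : ℝ) / ((d : ℝ) - k) with hpc
  have hpc0 : 0 < pc := div_pos hd0 hdk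
  have hpc2 : pc ≤ 2 := by
    rw [hpc, div_le_iff₀ hdk]; linarith
  have hpc1 : pc * (1 - (k : ℝ) / d) = 1 := by
    rw [hpc]; field_simp
  have hR0 : 0 < R := by linarith
  set T : ℝ := lam * R ^ (d - k) with hTdef
  have hT0 : 0 < T := by positivity
  have hTp : T ^ pc = R ^ d * lam ^ pc := by
    rw [hTdef, Real.mul_rpow h0.le (by positivity), ← Real.rpow_natCast R (d - k), ← Real.rpow_mul hR0.le,
      Nat.cast_sub (by omega), hpc, mul_comm ((d : ℝ) - k) _, div_mul_cancel₀ _ hdk.ne', Real.rpow_natCast,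
      mul_comm]
  have he0 : 0 < e := by linarith
  have hone : 0 ≤ 1 - (k : ℝ) / d := by
    rw [sub_nonneg, div_le_one hd0]; linarith
  have hA : e ^ (((m : ℝ) - pc) * (1 - (k : ℝ) / d)) ≤ T ^ ((m : ℝ) - pc) := by
    have hexp : 0 ≤ ((m : ℝ) - pc) * (1 - (k : ℝ) / d) := mul_nonneg (by linarith) hone
    calc e ^ (((m : ℝ) - pc) * (1 - (k : ℝ) / d)) ≤ (T ^ pc) ^ (((m : ℝ) - pc) * (1 - (k : ℝ) / d)) :=
          Real.rpow_le_rpow he0.le (by rw [hTp]; exact hlt.le) hexp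
      _ = T ^ ((m : ℝ) - pc) := by
          rw [← Real.rpow_mul hT0.le]
          congr 1
          calc pc * (((m : ℝ) - pc) * (1 - (k : ℝ) / d)) = ((m : ℝ) - pc) * (pc * (1 - (k : ℝ) / d)) := by ring
            _ = (m : ℝ) - pc := by rw [hpc1, mul_one]
  have hB : e ^ ((m : ℝ) * (1 - (k : ℝ) / d)) = e ^ (((m : ℝ) - pc) * (1 - (k : ℝ) / d)) * e := by
    have : (m : ℝ) * (1 - (k : ℝ) / d) = ((m : ℝ) - pc) * (1 - (k : ℝ) / d) + 1 := by
      have h7 : ((m : ℝ) - pc) * (1 - (k : ℝ) / d) = (m : ℝ) * (1 - (k : ℝ) / d) -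
          pc * (1 - (k : ℝ) / d) := by ring
      rw [h7, hpc1]; ring
    rw [this, Real.rpow_add he0, Real.rpow_one]
  have hC : f * T ^ m ≤ K * (R ^ d * (T ^ ((m : ℝ) - pc) * e)) := by
    refine h1.trans (h2.trans ?_)
    rw [hB]
    gcongr
  have hD : T ^ ((m : ℝ) - pc) = T ^ m * T ^ (-pc) := by
    rw [sub_eq_add_neg, Real.rpow_add hT0, Real.rpow_natCast]
  have hE : R ^ d * T ^ (-pc) = lam ^ (-pc) := by
    rw [Real.rpow_neg hT0.le, hTp, Real.rpow_neg h0.le]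
    have : lam ^ pc ≠ 0 := (Real.rpow_pos_of_pos h0 _).ne'
    have : R ^ d ≠ 0 := by positivity
    field_simp
  have hTm : 0 < T ^ m := by positivity
  have hF : f * T ^ m ≤ (K * lam ^ (-pc) * e) * T ^ m := by
    calc f * T ^ m ≤ K * (R ^ d * (T ^ ((m : ℝ) - pc) * e)) := hC
      _ = (K * (R ^ d * T ^ (-pc)) * e) * T ^ m := by rw [hD]; ring
      _ = _ := by rw [hE]
  exact le_of_mul_le_mul_right hF hTm

theorem card_box (d R : ℕ) : (box d R).card = R ^ d := by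
  unfold box
  rw [Fintype.card_piFinset]
  simp

/-- the local claim -/
theorem loc (k d : ℕ) (κ : ℝ) (hk : 3 ≤ k) (hd : 2 * k < d) (l R₀ : ℕ)
    (hl : 1 ≤ l) (hSM : G_SM)
    (hBG : ∀ R : ℕ, R₀ ≤ R → ∀ E : Finset (Fin d → ℤ), E ⊆ sbox d R →
      (R : ℝ) ^ ((d : ℝ) / (2 * k)) ≤ E.card → (E.card : ℝ) ≤ (R : ℝ) ^ ((1 - κ) * d) →
      (coin k R l E : ℝ) ≤ (R : ℝ) ^ d * (E.card : ℝ) ^ (((l : ℝ) + 1) * (1 - (k : ℝ) / d)))
    (R : ℕ) (hR : 1 ≤ R) (lam : ℝ) (E F : Finset (Fin d → ℤ)) (h0 : 0 < lam) (h1 : lam ≤ 1)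
    (hT : 1 ≤ lam * (R : ℝ) ^ (d - k)) (hlk : lam ≤ ((R : ℝ) ^ (d - k)) ^ (-κ))
    (hE : E ⊆ sbox d R) (hF : F ⊆ box d R)
    (h : ∀ x ∈ F, ∃ n : ℤ, lam * (R : ℝ) ^ (d - k) < hits k E x n) :
    (F.card : ℝ) ≤ ((k : ℝ) + (R₀ : ℝ) ^ d) * lam ^ (-((d : ℝ) / ((d : ℝ) - k))) * E.card := by
  classical
  have hk' : (3 : ℝ) ≤ k := by exact_mod_cast hk
  have hd' : (2 : ℝ) * k < d := by exact_mod_cast hd
  have hdk : (0 : ℝ) < (d : ℝ) - k := by linarith
  have hd0 : (0 : ℝ) < d := by linarith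
  have hR' : (1 : ℝ) ≤ R := by exact_mod_cast hR
  have hR0 : (0 : ℝ) < R := by linarith
  have hlp : 0 < lam ^ (-((d : ℝ) / ((d : ℝ) - k))) := Real.rpow_pos_of_pos h0 _
  have hCpos : 0 ≤ (k : ℝ) + (R₀ : ℝ) ^ d := by positivity
  rcases F.eq_empty_or_nonempty with hFe | ⟨x₀, hx₀⟩
  · rw [hFe]
    simp only [card_empty, Nat.cast_zero]
    positivity
  have hE1 : (1 : ℝ) ≤ E.card := by
    obtain ⟨n, hn⟩ := h x₀ hx₀
    have hle : hits k E x₀ n ≤ E.card := by
      unfold hits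
      exact card_filter_le _ _
    have : ((hits k E x₀ n : ℕ) : ℝ) ≤ E.card := by exact_mod_cast hle
    linarith
  have hFb : (F.card : ℝ) ≤ (R : ℝ) ^ d := by
    have := card_le_card hF
    rw [card_box] at this
    exact_mod_cast this
  have hlam1 : 1 ≤ lam ^ (-((d : ℝ) / ((d : ℝ) - k))) := by
    apply Real.one_le_rpow_of_pos_of_le_one_of_nonpos h0 h1
    have : 0 < (d : ℝ) / ((d : ℝ) - k) := div_pos hd0 hdk
    linarith
  have fin : ∀ K : ℝ, K ≤ (k : ℝ) + (R₀ : ℝ) ^ d →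
      (F.card : ℝ) ≤ K * lam ^ (-((d : ℝ) / ((d : ℝ) - k))) * E.card →
      (F.card : ℝ) ≤ ((k : ℝ) + (R₀ : ℝ) ^ d) * lam ^ (-((d : ℝ) / ((d : ℝ) - k))) * E.card := by
    intro K hK hh
    refine hh.trans ?_
    gcongr
  have hR0d : (0 : ℝ) ≤ (R₀ : ℝ) ^ d := by positivity
  by_cases hA : (R : ℝ) ^ d ≤ lam ^ (-((d : ℝ) / ((d : ℝ) - k))) * E.card
  · apply fin 1 (by linarith)
    rw [one_mul]
    linarith
  push Not at hA
  have hlt : (E.card : ℝ) < (R : ℝ) ^ d * lam ^ ((d : ℝ) / ((d : ℝ) - k)) := by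
    have hl0 : 0 < lam ^ ((d : ℝ) / ((d : ℝ) - k)) := Real.rpow_pos_of_pos h0 _
    rw [Real.rpow_neg h0.le] at hA
    calc (E.card : ℝ) = ((lam ^ ((d : ℝ) / ((d : ℝ) - k)))⁻¹ * E.card) * lam ^ ((d : ℝ) / ((d : ℝ) - k)) := by
          field_simp
      _ < (R : ℝ) ^ d * lam ^ ((d : ℝ) / ((d : ℝ) - k)) := by gcongr
  have hup : (E.card : ℝ) ≤ (R : ℝ) ^ ((1 - κ) * d) := by
    refine hlt.le.trans ?_
    have h3 : lam ^ ((d : ℝ) / ((d : ℝ) - k)) ≤ (R : ℝ) ^ (-κ * d) := by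
      calc lam ^ ((d : ℝ) / ((d : ℝ) - k)) ≤ (((R : ℝ) ^ (d - k)) ^ (-κ)) ^ ((d : ℝ) / ((d : ℝ) - k)) :=
            Real.rpow_le_rpow h0.le hlk (div_pos hd0 hdk).le
        _ = (R : ℝ) ^ (-κ * d) := by
            rw [← Real.rpow_natCast (R : ℝ) (d - k), ← Real.rpow_mul hR0.le, ← Real.rpow_mul hR0.le,
              Nat.cast_sub (by omega)]
            congr 1
            field_simp
    calc (R : ℝ) ^ d * lam ^ ((d : ℝ) / ((d : ℝ) - k)) ≤ (R : ℝ) ^ d * (R : ℝ) ^ (-κ * d) := by gcongr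
      _ = (R : ℝ) ^ ((1 - κ) * d) := by
          rw [← Real.rpow_natCast (R : ℝ) d, ← Real.rpow_add hR0]
          congr 1
          ring
  by_cases hB : (E.card : ℝ) ≤ (R : ℝ) ^ ((d : ℝ) / (2 * k))
  · apply fin k (by linarith)
    have hm := moment k R 1 _ (by linarith) E F hF h
    have hsm := hSM k R d E (by omega) hR (by omega)
    refine key k d 2 (by omega) hd le_rfl R lam E.card F.card k (coin k R 1 E) hR' h0 hE1 (by linarith)
      hlt hm (hsm.trans ?_)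
    have hE0 : (0 : ℝ) < E.card := by linarith
    have he1 : (E.card : ℝ) ≤ (E.card : ℝ) ^ (((2 : ℕ) : ℝ) * (1 - (k : ℝ) / d)) := by
      calc (E.card : ℝ) = (E.card : ℝ) ^ (1 : ℝ) := (Real.rpow_one _).symm
        _ ≤ _ := by
          apply Real.rpow_le_rpow_of_exponent_le hE1
          have : (k : ℝ) / d ≤ 1 / 2 := by
            rw [div_le_iff₀ hd0]; linarith
          push_cast
          linarith
    have he2 : (E.card : ℝ) ^ 2 * (R : ℝ) ^ (d - 1) ≤
        (R : ℝ) ^ d * (E.card : ℝ) ^ (((2 : ℕ) : ℝ) * (1 - (k : ℝ) / d)) := by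
      have h5 : (E.card : ℝ) ^ (2 * (k : ℝ) / d) ≤ R := by
        calc (E.card : ℝ) ^ (2 * (k : ℝ) / d) ≤ ((R : ℝ) ^ ((d : ℝ) / (2 * k))) ^ (2 * (k : ℝ) / d) :=
              Real.rpow_le_rpow hE0.le hB (by positivity)
          _ = R := by
              rw [← Real.rpow_mul hR0.le]
              have : (d : ℝ) / (2 * k) * (2 * (k : ℝ) / d) = 1 := by field_simp
              rw [this, Real.rpow_one]
      have h6 : (E.card : ℝ) ^ 2 = (E.card : ℝ) ^ (((2 : ℕ) : ℝ) * (1 - (k : ℝ) / d)) *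
          (E.card : ℝ) ^ (2 * (k : ℝ) / d) := by
        rw [← Real.rpow_add hE0, ← Real.rpow_natCast (E.card : ℝ) 2]
        congr 1
        push_cast
        ring
      have h7 : (R : ℝ) ^ d = (R : ℝ) ^ (d - 1) * R := by
        rw [← pow_succ]
        congr 1
        omega
      rw [h6, h7]
      have h8 : 0 ≤ (E.card : ℝ) ^ (((2 : ℕ) : ℝ) * (1 - (k : ℝ) / d)) := by positivity
      calc (E.card : ℝ) ^ (((2 : ℕ) : ℝ) * (1 - (k : ℝ) / d)) * (E.card : ℝ) ^ (2 * (k : ℝ) / d) *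
            (R : ℝ) ^ (d - 1) ≤ (E.card : ℝ) ^ (((2 : ℕ) : ℝ) * (1 - (k : ℝ) / d)) * R *
            (R : ℝ) ^ (d - 1) := by gcongr
        _ = _ := by ring
    calc (E.card : ℝ) * (R : ℝ) ^ d + ((k : ℝ) - 1) * (E.card : ℝ) ^ 2 * (R : ℝ) ^ (d - 1)
        = (R : ℝ) ^ d * (E.card : ℝ) + ((k : ℝ) - 1) * ((E.card : ℝ) ^ 2 * (R : ℝ) ^ (d - 1)) := by ring
      _ ≤ (R : ℝ) ^ d * (E.card : ℝ) ^ (((2 : ℕ) : ℝ) * (1 - (k : ℝ) / d)) + ((k : ℝ) - 1) *
          ((R : ℝ) ^ d * (E.card : ℝ) ^ (((2 : ℕ) : ℝ) * (1 - (k : ℝ) / d))) := by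
          gcongr
          linarith
      _ = (k : ℝ) * ((R : ℝ) ^ d * (E.card : ℝ) ^ (((2 : ℕ) : ℝ) * (1 - (k : ℝ) / d))) := by ring
  push Not at hB
  by_cases hC : R₀ ≤ R
  · apply fin 1 (by linarith)
    have hm := moment k R l _ (by linarith) E F hF h
    have hbg := hBG R hC E hE hB.le hup
    refine key k d (l + 1) (by omega) hd (by omega) R lam E.card F.card 1 (coin k R l E) hR' h0 hE1
      (by norm_num) hlt hm (hbg.trans ?_)
    rw [one_mul]
    push_cast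
    exact le_rfl
  · push Not at hC
    apply fin ((R₀ : ℝ) ^ d) (by linarith)
    have h9 : (R : ℝ) ^ d ≤ (R₀ : ℝ) ^ d := by
      have : (R : ℝ) ≤ R₀ := by exact_mod_cast hC.le
      gcongr
    have h10 : 1 ≤ lam ^ (-((d : ℝ) / ((d : ℝ) - k))) * E.card := by nlinarith
    calc (F.card : ℝ) ≤ (R₀ : ℝ) ^ d * 1 := by linarith
      _ ≤ (R₀ : ℝ) ^ d * (lam ^ (-((d : ℝ) / ((d : ℝ) - k))) * E.card) := by gcongr
      _ = _ := by ring

/-- translation invariance -/
theorem hits_translate {d : ℕ} (k : ℕ) (E : Finset (Fin d → ℤ)) (x v : Fin d → ℤ) (n : ℤ) :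
    hits k (E.image (fun y => y - v)) (x - v) n = hits k E x n := by
  classical
  unfold hits
  rw [filter_image, card_image_of_injective _ (sub_left_injective)]
  congr 1
  apply filter_congr
  intro y _
  simp

theorem thm : G_SM → G_BG → G_C2 := by
  classical
  intro hSM hBG k κ hk hκ hκ1
  obtain ⟨l, hl, D, hD⟩ := hBG k κ hk hκ hκ1
  refine ⟨max D (2 * k + 1), fun d hd => ?_⟩
  obtain ⟨R₀, hR₀⟩ := hD d (le_trans (le_max_left _ _) hd)
  have hdk : 2 * k < d := lt_of_lt_of_le (Nat.lt_succ_self _) (le_trans (le_max_right _ _) hd)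
  refine ⟨((k : ℝ) + (R₀ : ℝ) ^ d) * 2 ^ d, fun j lam E F h0 h1 hT hlk h => ?_⟩
  set R : ℕ := 2 ^ j with hRdef
  have hR : 1 ≤ R := Nat.one_le_two_pow
  have hRz : (0 : ℤ) < (R : ℤ) := by exact_mod_cast hR
  have hRd : (2 : ℝ) ^ (j * (d - k)) = (R : ℝ) ^ (d - k) := by
    rw [hRdef]; push_cast; rw [pow_mul]
  have hRk : (2 : ℤ) ^ (j * k) = (R : ℤ) ^ k := by
    rw [hRdef]; push_cast; rw [pow_mul]
  rw [hRd] at hT hlk
  simp only [hRd, hRk] at h
  set fl : (Fin d → ℤ) → (Fin d → ℤ) := fun x i => x i / (R : ℤ) with hfl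
  set I := F.image fl with hI
  have hsum : (F.card : ℝ) = ∑ c ∈ I, ((F.filter (fun x => fl x = c)).card : ℝ) := by
    rw [card_eq_sum_card_image fl F]
    push_cast
    rfl
  set Ec : (Fin d → ℤ) → Finset (Fin d → ℤ) := fun c =>
    E.filter (fun y => ∀ i, (R : ℤ) * c i - R ≤ y i ∧ y i < (R : ℤ) * c i + R) with hEc
  have hcube : ∀ x c : Fin d → ℤ, fl x = c → ∀ i, (R : ℤ) * c i ≤ x i ∧ x i < (R : ℤ) * c i + R := by
    intro x c hxc i
    have hi : x i / (R : ℤ) = c i := by rw [← hxc]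
    constructor
    · rw [← hi]; exact Int.mul_ediv_self_le hRz.ne'
    · rw [← hi]; have := Int.lt_mul_ediv_self_add (x := x i) hRz; exact this
  have hlp : 0 < lam ^ (-((d : ℝ) / ((d : ℝ) - k))) := Real.rpow_pos_of_pos h0 _
  have hloc : ∀ c ∈ I, ((F.filter (fun x => fl x = c)).card : ℝ) ≤
      ((k : ℝ) + (R₀ : ℝ) ^ d) * lam ^ (-((d : ℝ) / ((d : ℝ) - k))) * (Ec c).card := by
    intro c _
    set v : Fin d → ℤ := fun i => (R : ℤ) * c i with hv
    have hinj : Function.Injective (fun y : Fin d → ℤ => y - v) := sub_left_injective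
    have e1 : ((F.filter (fun x => fl x = c)).image (fun y => y - v)).card =
        (F.filter (fun x => fl x = c)).card := card_image_of_injective _ hinj
    have e2 : ((Ec c).image (fun y => y - v)).card = (Ec c).card := card_image_of_injective _ hinj
    rw [← e1, ← e2]
    refine loc k d κ hk hdk l R₀ hl hSM hR₀ R hR lam _ _ h0 h1 hT hlk ?_ ?_ ?_
    · intro y hy
      rw [mem_image] at hy
      obtain ⟨z, hz, rfl⟩ := hy
      unfold sbox
      rw [Fintype.mem_piFinset]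
      intro i
      have := (mem_filter.1 hz).2 i
      rw [mem_Ico]
      simp only [Pi.sub_apply, hv]
      constructor <;> linarith [this.1, this.2]
    · intro y hy
      rw [mem_image] at hy
      obtain ⟨z, hz, rfl⟩ := hy
      unfold box
      rw [Fintype.mem_piFinset]
      intro i
      have := hcube z c (mem_filter.1 hz).2 i
      rw [mem_Ico]
      simp only [Pi.sub_apply, hv]
      constructor <;> linarith [this.1, this.2]
    · intro y hy
      rw [mem_image] at hy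
      obtain ⟨x, hx, rfl⟩ := hy
      rw [mem_filter] at hx
      obtain ⟨n, hn, hh⟩ := h x hx.1
      refine ⟨n, ?_⟩
      rw [hits_translate]
      have hEq : hits k (Ec c) x n = hits k E x n := by
        unfold hits
        rw [hEc, filter_filter]
        congr 1
        apply filter_congr
        intro y _
        constructor
        · intro hy; exact hy.2
        · intro hy
          refine ⟨fun i => ?_, hy⟩
          have hxi := hcube x c hx.2 i
          have hpow : (x i - y i) ^ k < (R : ℤ) ^ k := by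
            refine lt_of_le_of_lt ?_ hn
            rw [← hy.2]
            exact single_le_sum (f := fun i => (x i - y i) ^ k)
              (fun i _ => pow_nonneg (sub_nonneg.2 (hy.1 i)) k) (mem_univ i)
          have hlt : x i - y i < R := lt_of_pow_lt_pow_left₀ k hRz.le hpow
          constructor
          · linarith [hxi.1]
          · linarith [hxi.2, hy.1 i]
      rw [hEq]
      exact hh
  have hmult : ∑ c ∈ I, ((Ec c).card : ℝ) ≤ 2 ^ d * E.card := by
    have hdc := sum_card_bipartiteAbove_eq_sum_card_bipartiteBelow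
      (s := I) (t := E) (fun c y => ∀ i, (R : ℤ) * c i - R ≤ y i ∧ y i < (R : ℤ) * c i + R)
    unfold bipartiteAbove bipartiteBelow at hdc
    have h2 : ∀ y ∈ E, (I.filter (fun c => ∀ i, (R : ℤ) * c i - R ≤ y i ∧ y i < (R : ℤ) * c i + R)).card ≤
        2 ^ d := by
      intro y _
      have hsub : I.filter (fun c => ∀ i, (R : ℤ) * c i - R ≤ y i ∧ y i < (R : ℤ) * c i + R) ⊆
          Fintype.piFinset (fun i => ({y i / (R : ℤ), y i / (R : ℤ) + 1} : Finset ℤ)) := by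
        intro c hc
        rw [Fintype.mem_piFinset]
        intro i
        have hci := (mem_filter.1 hc).2 i
        have a1 : c i - 1 ≤ y i / (R : ℤ) := by
          rw [Int.le_ediv_iff_mul_le hRz]; linarith [hci.1]
        have a2 : y i / (R : ℤ) < c i + 1 := by
          rw [Int.ediv_lt_iff_lt_mul hRz]; linarith [hci.2]
        rw [mem_insert, mem_singleton]
        omega
      refine (card_le_card hsub).trans ?_
      rw [Fintype.card_piFinset]
      calc ∏ i : Fin d, ({y i / (R : ℤ), y i / (R : ℤ) + 1} : Finset ℤ).card ≤ ∏ _i : Fin d, 2 :=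
            prod_le_prod' fun i _ => card_le_two
        _ = 2 ^ d := by simp
    have h3 : ∑ c ∈ I, (Ec c).card ≤ E.card * 2 ^ d := by
      calc ∑ c ∈ I, (Ec c).card = _ := hdc
        _ ≤ ∑ _y ∈ E, 2 ^ d := sum_le_sum h2
        _ = E.card * 2 ^ d := by rw [sum_const, smul_eq_mul]
    calc ∑ c ∈ I, ((Ec c).card : ℝ) = ((∑ c ∈ I, (Ec c).card : ℕ) : ℝ) := by push_cast; rfl
      _ ≤ ((E.card * 2 ^ d : ℕ) : ℝ) := by exact_mod_cast h3
      _ = 2 ^ d * E.card := by push_cast; ring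
  have hCpos : 0 ≤ ((k : ℝ) + (R₀ : ℝ) ^ d) * lam ^ (-((d : ℝ) / ((d : ℝ) - k))) := by positivity
  calc (F.card : ℝ) = ∑ c ∈ I, ((F.filter (fun x => fl x = c)).card : ℝ) := hsum
    _ ≤ ∑ c ∈ I, ((k : ℝ) + (R₀ : ℝ) ^ d) * lam ^ (-((d : ℝ) / ((d : ℝ) - k))) * (Ec c).card :=
        sum_le_sum hloc
    _ = ((k : ℝ) + (R₀ : ℝ) ^ d) * lam ^ (-((d : ℝ) / ((d : ℝ) - k))) * ∑ c ∈ I, ((Ec c).card : ℝ) := by
        rw [mul_sum]
    _ ≤ ((k : ℝ) + (R₀ : ℝ) ^ d) * lam ^ (-((d : ℝ) / ((d : ℝ) - k))) * (2 ^ d * E.card) := by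
        gcongr
    _ = _ := by ring

end Pool.Agent.Helper42.KS.PkC2
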